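import Pool.Agent.H6.FB.Stmts

/-!
# Project FB: module ROB (bad discs are stable)
-/

set_option autoImplicit false

open Metric Set Filter Topology

namespace Pool.Agent.H6.FB

theorem rob_thm (hH : HURStmt) : ROBStmt := by
  intro E _ _ _ F d hF hd
  have : ProperSpace E := FiniteDimensional.proper ℂ E
  obtain ⟨U, hU, hBU, hdU, hiU⟩ := hF
  obtain ⟨hdc, hdd, hs, ζ₀, hζ₀, hbad⟩ := hd
  have hK : IsCompact (d '' sphere (0 : ℂ) 1) :=
    (isCompact_sphere (0 : ℂ) 1).image_of_continuousOn (hdc.mono sphere_subset_closedBall)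
  have hKF : d '' sphere (0 : ℂ) 1 ⊆ F '' ball (0 : E) 1 := by
    rintro _ ⟨ζ, hζ, rfl⟩
    exact hs ζ hζ
  have hb : ball (0 : E) 1 ⊆ U := ball_subset_closedBall.trans hBU
  obtain ⟨r, hr0, hr1, η₁, hη₁, h1⟩ := hH E F (hdU.mono hb) (hiU.mono hb) _ hK hKF
  have hFc : ContinuousOn F (closedBall (0 : E) 1) := hdU.continuousOn.mono hBU
  have hcl : IsClosed (F '' closedBall (0 : E) 1) :=
    ((isCompact_closedBall (0 : E) 1).image_of_continuousOn hFc).isClosed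
  obtain ⟨δ, hδ, hδ'⟩ := Metric.isOpen_iff.1 hcl.isOpen_compl (d ζ₀) hbad
  refine ⟨min η₁ δ, lt_min hη₁ hδ, fun f hf hfF => ?_⟩
  refine ⟨hdc, hdd, fun ζ hζ => ?_, ζ₀, hζ₀, ?_⟩
  · have h2 := h1 f hf.2 (fun z hz => (hfF z (closedBall_subset_closedBall hr1.le hz)).trans_le
      (min_le_left _ _)) ⟨ζ, hζ, rfl⟩
    obtain ⟨w, hw, hw'⟩ := h2
    exact ⟨w, closedBall_subset_ball hr1 hw, hw'⟩
  · rintro ⟨z, hz, hz'⟩
    have h3 : ‖f z - F z‖ < δ := (hfF z hz).trans_le (min_le_right _ _)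
    have h4 : F z ∈ ball (d ζ₀) δ := by
      rw [mem_ball, dist_eq_norm, ← hz', norm_sub_rev]
      exact h3
    exact hδ' h4 ⟨z, hz, rfl⟩

end Pool.Agent.H6.FB
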